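import Pool.Agent.QEP.Stmts

namespace Pool.Agent.QEP.H78

open Pool.Agent.QEP
open scoped ComplexConjugate

/-- the flat coordinates -/
noncomputable def flat {k : ℕ} (v : Fin k → ℂ) : EuclideanSpace ℝ (Fin k × Fin 2) :=
  WithLp.toLp 2 (fun q => if q.2 = 0 then (v q.1).re else (v q.1).im)

theorem flat_norm_sq {k : ℕ} (v w : Fin k → ℂ) :
    ‖flat v - flat w‖ ^ 2 = ∑ i, ‖v i - w i‖ ^ 2 := by
  rw [EuclideanSpace.norm_sq_eq, Fintype.sum_prod_type]
  refine Finset.sum_congr rfl fun i _ => ?_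
  rw [Fin.sum_univ_two]
  simp only [flat, PiLp.sub_apply]
  simp only [if_true, one_ne_zero, if_false, Real.norm_eq_abs, sq_abs]
  rw [← Complex.normSq_eq_norm_sq, Complex.normSq_apply]
  simp only [Complex.sub_re, Complex.sub_im]
  ring

theorem flat_le {k : ℕ} (v w : Fin k → ℂ) : ‖flat v - flat w‖ ≤ ∑ i, ‖v i - w i‖ := by
  have h0 : 0 ≤ ∑ i, ‖v i - w i‖ := Finset.sum_nonneg fun i _ => norm_nonneg _
  refine (sq_le_sq₀ (norm_nonneg _) h0).mp ?_
  rw [flat_norm_sq]
  exact Finset.sum_sq_le_sq_sum_of_nonneg fun i _ => norm_nonneg _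

theorem le_flat {k : ℕ} (v w : Fin k → ℂ) : ∑ i, ‖v i - w i‖ ≤ k * ‖flat v - flat w‖ := by
  have h : ∀ i, ‖v i - w i‖ ≤ ‖flat v - flat w‖ := by
    intro i
    refine (sq_le_sq₀ (norm_nonneg _) (norm_nonneg _)).mp ?_
    rw [flat_norm_sq]
    exact Finset.single_le_sum (f := fun i => ‖v i - w i‖ ^ 2) (fun i _ => sq_nonneg _)
      (Finset.mem_univ i)
  calc ∑ i, ‖v i - w i‖ ≤ ∑ _i : Fin k, ‖flat v - flat w‖ := Finset.sum_le_sum fun i _ => h i
    _ = k * ‖flat v - flat w‖ := by simp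

/-- the complex coordinates -/
noncomputable def zz {k : ℕ} (v : Fin k → ℂ) : EuclideanSpace ℂ (Fin k) := WithLp.toLp 2 v

theorem zz_norm_sq {k : ℕ} (v w : Fin k → ℂ) : ‖zz v - zz w‖ ^ 2 = ∑ i, ‖v i - w i‖ ^ 2 := by
  rw [EuclideanSpace.norm_sq_eq]
  refine Finset.sum_congr rfl fun i _ => ?_
  simp [zz]

theorem siegel_mem {k : ℕ} (z : EuclideanSpace ℂ (Fin k)) (t : ℝ) {r : ℝ} (hr : 0 < r) :
    ‖(siegel z t r).1‖ ^ 2 < (siegel z t r).2.im := by
  simp [siegel, hr]

theorem real_norm_sq {k : ℕ} (x y : EuclideanSpace ℝ (Fin (k + 1))) :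
    ‖x - y‖ ^ 2 = ∑ i : Fin k, (x (Fin.castSucc i) - y (Fin.castSucc i)) ^ 2 +
      (x (Fin.last k) - y (Fin.last k)) ^ 2 := by
  rw [EuclideanSpace.norm_sq_eq, Fin.sum_univ_castSucc]
  simp

theorem fin (hDRE : DREStmt) (hDCO : DCOStmt) (hUPP : UPPStmt) (hLOW : LOWStmt) : FINRow := by
  rintro ⟨C, h, T, g, hC, H⟩ k hk
  obtain ⟨A, hA1, hA⟩ := hUPP k C h T g hC H
  obtain ⟨B, hB1, hB⟩ := hLOW k C h T g hC H
  refine ⟨B * (1 + k) + A + 1, B * 10 + A * 10 + 10 + Real.log A,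
    fun p => (⟨siegel (zz fun i => h (p.1.1 (Fin.castSucc i)))
      (p.1.1 (Fin.last k) + ∑ i : Fin k, T (p.1.1 (Fin.castSucc i))) p.1.2,
      siegel_mem _ _ p.2⟩, flat fun i => g (p.1.1 (Fin.castSucc i)) p.1.2), ?_, ?_, ?_⟩
  · have : (0 : ℝ) ≤ B * (1 + k) := by positivity
    linarith
  · have := Real.log_nonneg hA1
    positivity
  intro p q
  have hp := p.2
  have hq := q.2
  set s : Fin k → ℝ := fun i => p.1.1 (Fin.castSucc i) with hs
  set s' : Fin k → ℝ := fun i => q.1.1 (Fin.castSucc i) with hs'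
  set t : ℝ := p.1.1 (Fin.last k) with ht
  set t' : ℝ := q.1.1 (Fin.last k) with ht'
  set r : ℝ := p.1.2 with hr
  set r' : ℝ := q.1.2 with hr'
  set P : ℝ := (∑ i, (s i - s' i) ^ 2 + (t - t') ^ 2 + r ^ 2 + r' ^ 2) with hP
  set N : ℝ := ((∑ i, ‖h (s i) - h (s' i)‖ ^ 2 + r + r') ^ 2 +
        ((t + ∑ i, T (s i)) - (t' + ∑ i, T (s' i)) +
          2 * (∑ i, h (s i) * conj (h (s' i))).im) ^ 2) with hN
  set G : ℝ := ∑ i, ‖g (s i) r - g (s' i) r'‖ with hG
  obtain ⟨a1, a2⟩ := hA s s' t t' r r' hp hq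
  have b1 := hB s s' t t' r r' hp hq
  have hrr : 0 < r * r' := mul_pos hp hq
  have hPpos : 0 < P := by
    have : 0 ≤ ∑ i, (s i - s' i) ^ 2 := Finset.sum_nonneg fun i _ => sq_nonneg _
    have := sq_nonneg (t - t')
    have : 0 < r ^ 2 := pow_pos hp 2
    have : 0 < r' ^ 2 := pow_pos hq 2
    rw [hP]; linarith
  have hNpos : 0 < N := by
    have : 0 ≤ ∑ i, ‖h (s i) - h (s' i)‖ ^ 2 := Finset.sum_nonneg fun i _ => sq_nonneg _
    have h1 : 0 < (∑ i, ‖h (s i) - h (s' i)‖ ^ 2 + r + r') ^ 2 := by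
      have h2 : 0 < ∑ i, ‖h (s i) - h (s' i)‖ ^ 2 + r + r' := by linarith
      positivity
    rw [hN]
    have := sq_nonneg ((t + ∑ i, T (s i)) - (t' + ∑ i, T (s' i)) +
          2 * (∑ i, h (s i) * conj (h (s' i))).im)
    linarith
  -- real distance
  obtain ⟨d1, d2, d3⟩ := hDRE (k + 1) p q
  have hPe : ‖p.1.1 - q.1.1‖ ^ 2 + p.1.2 ^ 2 + q.1.2 ^ 2 = P := by
    rw [real_norm_sq]
  rw [hPe] at d1 d2
  have hlog2 : Real.log (P / (2 * (r * r'))) = Real.log (P / (r * r')) - Real.log 2 := by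
    rw [show P / (2 * (r * r')) = P / (r * r') / 2 by field_simp,
      Real.log_div (by positivity) (by norm_num)]
  -- complex distance
  obtain ⟨c1, c2, c3⟩ := hDCO k (zz fun i => h (s i)) (zz fun i => h (s' i))
    (t + ∑ i, T (s i)) (t' + ∑ i, T (s' i)) r r' (siegel_mem _ _ hp) (siegel_mem _ _ hq) hp hq
  have hNe : ((‖(zz fun i => h (s i)) - (zz fun i => h (s' i))‖ ^ 2 + r + r') ^ 2 +
      ((t + ∑ i, T (s i)) - (t' + ∑ i, T (s' i)) +
        2 * (∑ i, (zz fun i => h (s i)) i * conj ((zz fun i => h (s' i)) i)).im) ^ 2) = N := by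
    rw [zz_norm_sq]
    rfl
  rw [hNe] at c1 c2
  have hlog4 : Real.log (N / (4 * (r * r'))) = Real.log (N / (r * r')) - Real.log 4 := by
    rw [show N / (4 * (r * r')) = N / (r * r') / 4 by field_simp,
      Real.log_div (by positivity) (by norm_num)]
  rw [hlog4] at c1
  rw [hlog2] at d1
  -- the flat factor
  have f1 := flat_le (fun i => g (s i) r) (fun i => g (s' i) r')
  have f2 := le_flat (fun i => g (s i) r) (fun i => g (s' i) r')
  set dC := dComplex ⟨siegel (zz fun i => h (s i)) (t + ∑ i, T (s i)) r, siegel_mem _ _ hp⟩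
    ⟨siegel (zz fun i => h (s' i)) (t' + ∑ i, T (s' i)) r', siegel_mem _ _ hq⟩ with hdC
  set U := ‖flat (fun i => g (s i) r) - flat (fun i => g (s' i) r')‖ with hU
  have hU0 : 0 ≤ U := norm_nonneg _
  have l2 : Real.log 2 ≤ 1 := by
    have := Real.log_two_lt_d9
    linarith
  have l4 : Real.log 4 ≤ 2 := by
    rw [show (4 : ℝ) = 2 * 2 by norm_num, Real.log_mul (by norm_num) (by norm_num)]
    linarith
  have key1 : Real.log (N / (r * r')) ≤ Real.log A + Real.log (P / (r * r')) := by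
    rw [← Real.log_mul (by positivity) (by positivity)]
    apply Real.log_le_log (by positivity)
    rw [← mul_div_assoc]
    gcongr
  have hdP : dProd ((⟨siegel (zz fun i => h (s i)) (t + ∑ i, T (s i)) r, siegel_mem _ _ hp⟩ :
      HComplex k), flat (fun i => g (s i) r))
      ((⟨siegel (zz fun i => h (s' i)) (t' + ∑ i, T (s' i)) r', siegel_mem _ _ hq⟩ :
      HComplex k), flat (fun i => g (s' i) r')) = Real.sqrt (dC ^ 2 + U ^ 2) := rfl
  have hgoal : (B * (1 + k) + A + 1)⁻¹ * dReal p q - (B * 10 + A * 10 + 10 + Real.log A) ≤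
      Real.sqrt (dC ^ 2 + U ^ 2) ∧
      Real.sqrt (dC ^ 2 + U ^ 2) ≤ (B * (1 + k) + A + 1) * dReal p q +
        (B * 10 + A * 10 + 10 + Real.log A) := by
    have hlA := Real.log_nonneg hA1
    have hk0 : (0 : ℝ) ≤ k := by positivity
    have hBk : 0 ≤ B * (1 + k) := by positivity
    constructor
    · have e1 : dC ≤ Real.sqrt (dC ^ 2 + U ^ 2) := Real.le_sqrt_of_sq_le (by nlinarith [sq_nonneg U])
      have e2 : U ≤ Real.sqrt (dC ^ 2 + U ^ 2) := Real.le_sqrt_of_sq_le (by nlinarith [sq_nonneg dC])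
      set S := Real.sqrt (dC ^ 2 + U ^ 2)
      have hS : 0 ≤ S := Real.sqrt_nonneg _
      have e3 : dReal p q ≤ B * (1 + (dC + 2) + k * U) := by
        refine d2.trans (b1.trans ?_)
        apply mul_le_mul_of_nonneg_left _ (by linarith)
        linarith
      have e4 : dReal p q ≤ B * (1 + k) * S + B * 3 := by
        have : k * U ≤ k * S := mul_le_mul_of_nonneg_left e2 hk0
        have : B * (1 + (dC + 2) + k * U) ≤ B * (1 + (S + 2) + k * S) :=
          mul_le_mul_of_nonneg_left (by linarith) (by linarith)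
        linarith
      have hL : 0 < B * (1 + k) + A + 1 := by linarith
      rw [sub_le_iff_le_add, inv_mul_le_iff₀ hL]
      have : 0 ≤ (A + 1) * S := by positivity
      have hLge : 1 ≤ B * (1 + k) + A + 1 := by linarith
      have : B * 10 + A * 10 + 10 + Real.log A ≤
          (B * (1 + k) + A + 1) * (B * 10 + A * 10 + 10 + Real.log A) := by
        have : 0 ≤ B * 10 + A * 10 + 10 + Real.log A := by positivity
        nlinarith
      nlinarith
    · have e1 : Real.sqrt (dC ^ 2 + U ^ 2) ≤ dC + U := by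
        rw [Real.sqrt_le_left (by linarith)]
        nlinarith [mul_nonneg c3 hU0]
      have e2 : dC ≤ dReal p q + 1 + Real.log A := by linarith
      have e3 : U ≤ A * (2 + dReal p q) := by
        refine f1.trans (a2.trans ?_)
        apply mul_le_mul_of_nonneg_left _ (by linarith)
        linarith
      have : 0 ≤ B * (1 + k) * dReal p q := by positivity
      nlinarith
  exact hgoal

end Pool.Agent.QEP.H78
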