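import Pool.Agent.Helper78_QEP.SEP
import Pool.Agent.Helper78_QEP.FIN
import Pool.Agent.Helper90_QEP.ADJ
import Pool.Agent.Helper75_QEP.DIS
import Pool.Agent.Helper65_QEP.BLK
import Pool.Agent.Helper32_QEP.Cor
import Pool.Agent.Helper65_QEP.CRX
import Pool.Agent.Helper75_QEP.CRY
import Pool.Agent.Helper20_QEP.Gli
import Pool.Agent.Helper75_QEP.GLO
import Pool.Agent.Helper32_QEP.Hol
import Pool.Agent.Helper81_QEP.LOW
import Pool.Agent.Helper10_QEP.SGN
import Pool.Agent.Helper3_QEP.TRA
import Pool.Agent.Helper56_QEP.UPP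

/-! Assembly of the rows of QEP. -/

namespace Pool.Agent.QEP.H78

open Pool.Agent.QEP

theorem sgn' : SGNStmt := H10.sgn
theorem cor' : CORStmt := H32.cor sgn'
theorem dig' : DIGStmt := H32.dig sgn' cor'
theorem lev' : LEVStmt := H90.lev dig'
theorem adj' : ADJStmt := H90.adj sgn'
theorem inj' : INJStmt := H90.inj dig'
theorem blk' : BLKStmt := H65.blk sgn' cor'
theorem hol' : HOLStmt := H32.hol cor' blk'
theorem vli' : VLIStmt := H32.vli
theorem gli' : GLIStmt := H20.gli vli'
theorem crx' : CRXStmt := H65.crx dig' lev' adj' inj'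
theorem cry' : CRYStmt := H75.cry adj' inj'
theorem tra' : TRAStmt := H3.tra
theorem sep' : SEPStmt := sep lev' adj' inj' vli' crx' cry' tra'
theorem arc' : ARCStmt := H75.arc
theorem dre' : DREStmt := H75.dre arc'
theorem dco' : DCOStmt := H75.dco arc'
theorem upp' : UPPStmt := H56.upp
theorem low' : LOWStmt := H81.low
theorem glo' : GLORow := H75.glo
theorem fin' : FINRow := fin dre' dco' upp' low'

end Pool.Agent.QEP.H78
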