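import Pool.Agent.QEP.Stmts

namespace Pool.Agent.QEP.H78

open Pool.Agent.QEP

theorem pow3_split {k k' : ℕ} (h : k < k') : (3 : ℤ) ^ k' = 3 ^ k * 3 ^ (k' - k) := by
  rw [← pow_add]; congr 1; omega

theorem level_i {P : ℕ → ℤ} (hdiv : ∀ k i, P (i / 9 ^ k) = P i / 3 ^ k) {i j l k' k : ℕ} {L : ℤ}
    (hI : P (i / 9 ^ k') = L - 1) (hJ : P (j / 9 ^ k') = L) (hd : |P i - P j| ≤ 3 ^ l)
    (hlk : l ≤ k) (hk : k < k') :
    P (i / 9 ^ k) = 3 ^ (k' - k) * L - 1 ∧ P (j / 9 ^ k) = 3 ^ (k' - k) * L := by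
  rw [hdiv] at hI hJ
  rw [hdiv, hdiv]
  have h3k : (0 : ℤ) < 3 ^ k := by positivity
  have h3k' : (0 : ℤ) < 3 ^ k' := by positivity
  have hlk3 : (3 : ℤ) ^ l ≤ 3 ^ k := pow_le_pow_right₀ (by norm_num) hlk
  have hi1 : P i < 3 ^ k' * L := by
    have := Int.lt_mul_ediv_self_add (x := P i) (k := 3 ^ k') h3k'
    rw [hI] at this
    nlinarith
  have hj1 : 3 ^ k' * L ≤ P j := by
    have := Int.mul_ediv_self_le (x := P j) (k := 3 ^ k') h3k'.ne'
    rw [hJ] at this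
    exact this
  have ha := abs_le.mp hd
  have hi2 : 3 ^ k' * L - 3 ^ k ≤ P i := by linarith [ha.1]
  have hj2 : P j < 3 ^ k' * L + 3 ^ k := by linarith [ha.1]
  rw [pow3_split hk] at hi1 hj1 hi2 hj2
  constructor
  · rw [Int.ediv_eq_iff_of_pos h3k]
    constructor
    · nlinarith
    · nlinarith
  · rw [Int.ediv_eq_iff_of_pos h3k]
    constructor
    · nlinarith
    · nlinarith

theorem mod_two {k k' : ℕ} (h : k < k') (L : ℤ) : (3 ^ (k' - k) * L - 1) % 3 = 2 := by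
  obtain ⟨e, he⟩ : ∃ e, k' - k = e + 1 := ⟨k' - k - 1, by omega⟩
  rw [he, pow_succ]
  have : (3 : ℤ) ^ e * 3 * L - 1 = 3 * (3 ^ e * L) - 1 := by ring
  rw [this]
  omega

theorem mod_zero {k k' : ℕ} (h : k < k') (L : ℤ) : (3 ^ (k' - k) * L) % 3 = 0 := by
  obtain ⟨e, he⟩ : ∃ e, k' - k = e + 1 := ⟨k' - k - 1, by omega⟩
  rw [he, pow_succ]
  have : (3 : ℤ) ^ e * 3 * L = 3 * (3 ^ e * L) := by ring
  rw [this]
  omega

theorem core (hVLI : VLIStmt) (hTRA : TRAStmt) {P : ℕ → ℤ}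
    (hdiv : ∀ k i, P (i / 9 ^ k) = P i / 3 ^ k) (hstep : ∀ i, |P (i + 1) - P i| ≤ 1)
    (h0 : P 0 = 0) {K l m i j k' : ℕ} {L : ℤ} (hk'K : k' < K) (hlm : l < m) (hmk : m ≤ k')
    (hblk : i / 9 ^ (k' + 1) = j / 9 ^ (k' + 1)) (hij : (9 : ℤ) ^ m ≤ |(i : ℤ) - j|)
    (hI : P (i / 9 ^ k') = L - 1) (hJ : P (j / 9 ^ k') = L) (hd : |P i - P j| ≤ 3 ^ l)
    (hcr : ∀ I' J' : ℕ, (I' = i / 9 ^ k' + 1 ∨ i / 9 ^ k' = I' + 1) → P I' = L →
      (J' = j / 9 ^ k' + 1 ∨ j / 9 ^ k' = J' + 1) → P J' = L - 1 →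
      I' = j / 9 ^ k' ∧ J' = i / 9 ^ k') :
    ((m : ℝ) - l) / 2 - 5 ≤ gg P K l i - gg P K l j := by
  obtain ⟨hv1, hvL, hv2, hv0⟩ := hVLI
  obtain ⟨hT1, hT2⟩ := hTRA P hdiv hstep h0
  -- signs
  have hinf : ∀ (x : ℕ) (S : Set ℕ), 0 ≤ Metric.infDist x S := fun x S => Metric.infDist_nonneg
  have hvi : ∀ k, l ≤ k → k < k' → 0 ≤ vv P k i := by
    intro k hlk hk
    obtain ⟨ha, hb⟩ := level_i hdiv hI hJ hd hlk hk
    rw [hv2 P k i (by rw [ha]; exact mod_two hk L)]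
    have := hinf i {j : ℕ | P (j / 9 ^ k) % 3 = 0}
    positivity
  have hvj : ∀ k, l ≤ k → k < k' → vv P k j ≤ 0 := by
    intro k hlk hk
    obtain ⟨ha, hb⟩ := level_i hdiv hI hJ hd hlk hk
    rw [hv0 P k j (by rw [hb]; exact mod_zero hk L)]
    have := hinf j {n : ℕ | P (n / 9 ^ k) % 3 = 2}
    have h2 : 0 ≤ min (Metric.infDist j {n : ℕ | P (n / 9 ^ k) % 3 = 2}) (9 ^ k) / 9 ^ k := by
      positivity
    linarith
  have hbig : ∀ k, l ≤ k → k < m → 1 / 2 ≤ vv P k i - vv P k j := by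
    intro k hlk hkm
    have hk : k < k' := by omega
    obtain ⟨ha, hb⟩ := level_i hdiv hI hJ hd hlk hk
    by_contra hcon
    push Not at hcon
    have h1 := hvi k hlk hk
    have h2 := hvj k hlk hk
    have h3 : vv P k i < 1 / 2 := by linarith
    have h4 : -(1 / 2) < vv P k j := by linarith
    have h9 : (0 : ℝ) < 9 ^ k := by positivity
    rw [hv2 P k i (by rw [ha]; exact mod_two hk L)] at h3
    rw [hv0 P k j (by rw [hb]; exact mod_zero hk L)] at h4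
    have h5 : Metric.infDist i {j : ℕ | P (j / 9 ^ k) % 3 = 0} < 9 ^ k / 2 := by
      rw [div_lt_iff₀ h9] at h3
      rcases min_lt_iff.mp h3 with h | h
      · linarith
      · linarith
    have h6 : Metric.infDist j {j : ℕ | P (j / 9 ^ k) % 3 = 2} < 9 ^ k / 2 := by
      have h4' : min (Metric.infDist j {n : ℕ | P (n / 9 ^ k) % 3 = 2}) (9 ^ k) / 9 ^ k < 1 / 2 := by
        linarith
      rw [div_lt_iff₀ h9] at h4'
      rcases min_lt_iff.mp h4' with h | h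
      · linarith
      · linarith
    obtain ⟨I', hI'1, hI'2, -, hI'4⟩ := hT1 k k' i L hk ha h5
    obtain ⟨J', hJ'1, hJ'2, -, hJ'4⟩ := hT2 k k' j L hk hb ⟨i, by rw [ha]; exact mod_two hk L⟩ h6
    obtain ⟨e1, e2⟩ := hcr I' J' hI'1 hI'2 hJ'1 hJ'2
    subst e1
    subst e2
    rw [max_comm] at hJ'4
    have h7 : |(i : ℝ) - j| < 9 ^ k := by
      have := abs_sub_le (i : ℝ) (9 ^ k' * ((max (i / 9 ^ k') (j / 9 ^ k') : ℕ) : ℝ)) j
      rw [abs_sub_comm (9 ^ k' * ((max (i / 9 ^ k') (j / 9 ^ k') : ℕ) : ℝ)) (j : ℝ)] at this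
      linarith
    have h8 : (9 : ℝ) ^ m ≤ |(i : ℝ) - j| := by exact_mod_cast hij
    have h10 : (9 : ℝ) ^ k ≤ 9 ^ m := pow_le_pow_right₀ (by norm_num) hkm.le
    linarith
  -- the distance of i and j
  have hdist : |(i : ℝ) - j| ≤ 9 ^ (k' + 1) := by
    have h9 : 0 < 9 ^ (k' + 1) := by positivity
    have e1 := Nat.div_add_mod i (9 ^ (k' + 1))
    have e2 := Nat.div_add_mod j (9 ^ (k' + 1))
    have f1 := Nat.mod_lt i h9
    have f2 := Nat.mod_lt j h9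
    rw [hblk] at e1
    have g1 : (i : ℝ) = 9 ^ (k' + 1) * (j / 9 ^ (k' + 1) : ℕ) + (i % 9 ^ (k' + 1) : ℕ) := by
      exact_mod_cast e1.symm
    have g2 : (j : ℝ) = 9 ^ (k' + 1) * (j / 9 ^ (k' + 1) : ℕ) + (j % 9 ^ (k' + 1) : ℕ) := by
      exact_mod_cast e2.symm
    have f1' : ((i % 9 ^ (k' + 1) : ℕ) : ℝ) < 9 ^ (k' + 1) := by exact_mod_cast f1
    have f2' : ((j % 9 ^ (k' + 1) : ℕ) : ℝ) < 9 ^ (k' + 1) := by exact_mod_cast f2
    have f1'' : (0 : ℝ) ≤ ((i % 9 ^ (k' + 1) : ℕ) : ℝ) := by positivity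
    have f2'' : (0 : ℝ) ≤ ((j % 9 ^ (k' + 1) : ℕ) : ℝ) := by positivity
    rw [g1, g2, abs_le]
    constructor <;> linarith
  -- sums
  have hsum : ∀ n, gg P n l i - gg P n l j = ∑ k ∈ Finset.Ico l n, (vv P k i - vv P k j) := by
    intro n
    unfold gg
    rw [Finset.sum_sub_distrib]
  have hA : ∀ n, l ≤ n → n ≤ m → ((n : ℝ) - l) / 2 ≤
      ∑ k ∈ Finset.Ico l n, (vv P k i - vv P k j) := by
    intro n hn
    induction n, hn using Nat.le_induction with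
    | base => intro _; simp
    | succ n hn ih =>
      intro hnm
      rw [Finset.sum_Ico_succ_top hn]
      have := ih (by omega)
      have := hbig n hn (by omega)
      push_cast
      linarith
  have hB : ∀ n, m ≤ n → n ≤ k' → ((m : ℝ) - l) / 2 ≤
      ∑ k ∈ Finset.Ico l n, (vv P k i - vv P k j) := by
    intro n hn
    induction n, hn using Nat.le_induction with
    | base => intro _; exact hA m hlm.le le_rfl
    | succ n hn ih =>
      intro hnm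
      rw [Finset.sum_Ico_succ_top (by omega)]
      have := ih (by omega)
      have h1 := hvi n (by omega) (by omega)
      have h2 := hvj n (by omega) (by omega)
      linarith
  have hC : ∀ n, k' + 1 ≤ n → ((m : ℝ) - l) / 2 - 2 - 9 / 4 + 9 / 4 * 9 ^ (k' + 1) / 9 ^ n ≤
      ∑ k ∈ Finset.Ico l n, (vv P k i - vv P k j) := by
    intro n hn
    induction n, hn using Nat.le_induction with
    | base =>
      rw [Finset.sum_Ico_succ_top (by omega)]
      have h1 := hB k' hmk le_rfl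
      have h2 := abs_le.mp (hv1 P k' i)
      have h3 := abs_le.mp (hv1 P k' j)
      have h9 : (9 / 4 * 9 ^ (k' + 1) / 9 ^ (k' + 1) : ℝ) = 9 / 4 := by
        field_simp
      rw [h9]
      linarith
    | succ n hn ih =>
      rw [Finset.sum_Ico_succ_top (by omega)]
      have h2 := abs_le.mp (hvL P n i j)
      have h9 : (0 : ℝ) < 9 ^ n := by positivity
      have h3 : 2 * |(i : ℝ) - j| / 9 ^ n ≤ 2 * 9 ^ (k' + 1) / 9 ^ n := by
        gcongr
      have h4 : (9 / 4 * 9 ^ (k' + 1) / 9 ^ (n + 1) : ℝ) =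
          9 / 4 * 9 ^ (k' + 1) / 9 ^ n - 2 * 9 ^ (k' + 1) / 9 ^ n := by
        rw [pow_succ 9 n]
        field_simp
        ring
      rw [h4]
      linarith [h2.1]
  rw [hsum]
  have h := hC K hk'K
  have : (0 : ℝ) ≤ 9 / 4 * 9 ^ (k' + 1) / 9 ^ K := by positivity
  linarith

theorem next_of_lt {P : ℕ → ℤ} (hdiv : ∀ k i, P (i / 9 ^ k) = P i / 3 ^ k) {i j l k' : ℕ}
    (hlt : P (i / 9 ^ k') < P (j / 9 ^ k')) (hd : |P i - P j| ≤ 3 ^ l) (hl : l < k') :
    P (i / 9 ^ k') = P (j / 9 ^ k') - 1 := by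
  have h3k' : (0 : ℤ) < 3 ^ k' := by positivity
  have h3 : (3 : ℤ) ^ l < 3 ^ k' := pow_lt_pow_right₀ (by norm_num) hl
  by_contra hne
  have h2 : P (i / 9 ^ k') + 1 ≤ P (j / 9 ^ k') - 1 := by omega
  rw [hdiv, hdiv] at h2
  have h4 := Int.lt_mul_ediv_self_add (x := P i) (k := 3 ^ k') h3k'
  have h5 := Int.mul_ediv_self_le (x := P j) (k := 3 ^ k') h3k'.ne'
  have h6 := (abs_le.mp hd).1
  have h7 : 3 ^ k' * (P i / 3 ^ k' + 1) ≤ 3 ^ k' * (P j / 3 ^ k' - 1) :=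
    mul_le_mul_of_nonneg_left h2 h3k'.le
  nlinarith

theorem sep (hLEV : LEVStmt) (hADJ : ADJStmt) (hINJ : INJStmt) (hVLI : VLIStmt)
    (hCRX : CRXStmt) (hCRY : CRYStmt) (hTRA : TRAStmt) : SEPStmt := by
  intro K l m i j hK hm hX hY
  obtain ⟨hLX, hLY, -, -⟩ := hLEV
  have hsx0 : sx 0 = 1 := by rw [sx]; simp
  have hsy0 : sy 0 = 1 := by rw [sy]; simp
  have hX0 : X 0 = 0 := by unfold X; rw [hsx0]; simp [cx]
  have hY0 : Y 0 = 0 := by unfold Y; rw [hsy0]; simp [cy]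
  have hsX : ∀ i, |X (i + 1) - X i| ≤ 1 := by
    intro i
    rcases hADJ i with ⟨h, -⟩ | ⟨-, h | h⟩ <;> rw [h] <;> simp
  have hsY : ∀ i, |Y (i + 1) - Y i| ≤ 1 := by
    intro i
    rcases hADJ i with ⟨-, h | h⟩ | ⟨h, -⟩ <;> rw [h] <;> simp
  have hmax : 0 ≤ max |gg X K l i - gg X K l j| |gg Y K l i - gg Y K l j| :=
    le_max_of_le_left (abs_nonneg _)
  rcases le_or_gt m l with hml | hlm
  · have : (m : ℝ) ≤ l := by exact_mod_cast hml
    linarith
  have hne : i ≠ j := by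
    rintro rfl
    simp only [sub_self, abs_zero] at hm
    have : (0 : ℤ) < 9 ^ m := by positivity
    linarith
  -- the level k'
  have hex : ∃ n, i / 9 ^ n = j / 9 ^ n := ⟨K, hK⟩
  obtain ⟨k', hk'⟩ : ∃ k', Nat.find hex = k' + 1 := by
    refine Nat.exists_eq_succ_of_ne_zero ?_
    intro h
    have := Nat.find_spec hex
    rw [h] at this
    simp at this
    exact hne this
  have hblk : i / 9 ^ (k' + 1) = j / 9 ^ (k' + 1) := by
    have := Nat.find_spec hex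
    rwa [hk'] at this
  have hIJ : i / 9 ^ k' ≠ j / 9 ^ k' := Nat.find_min hex (by omega)
  have hk'K : k' < K := by
    have := Nat.find_min' hex hK
    omega
  have hmk : m ≤ k' := by
    by_contra hcon
    push Not at hcon
    have h9 : 0 < 9 ^ (k' + 1) := by positivity
    have e1 := Nat.div_add_mod i (9 ^ (k' + 1))
    have e2 := Nat.div_add_mod j (9 ^ (k' + 1))
    have f1 := Nat.mod_lt i h9
    have f2 := Nat.mod_lt j h9
    rw [hblk] at e1
    have h1 : |(i : ℤ) - j| < 9 ^ (k' + 1) := by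
      have g1 : (i : ℤ) = 9 ^ (k' + 1) * (j / 9 ^ (k' + 1) : ℕ) + (i % 9 ^ (k' + 1) : ℕ) := by
        exact_mod_cast e1.symm
      have g2 : (j : ℤ) = 9 ^ (k' + 1) * (j / 9 ^ (k' + 1) : ℕ) + (j % 9 ^ (k' + 1) : ℕ) := by
        exact_mod_cast e2.symm
      have f1' : ((i % 9 ^ (k' + 1) : ℕ) : ℤ) < 9 ^ (k' + 1) := by exact_mod_cast f1
      have f2' : ((j % 9 ^ (k' + 1) : ℕ) : ℤ) < 9 ^ (k' + 1) := by exact_mod_cast f2
      have f1'' : (0 : ℤ) ≤ ((i % 9 ^ (k' + 1) : ℕ) : ℤ) := by positivity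
      have f2'' : (0 : ℤ) ≤ ((j % 9 ^ (k' + 1) : ℕ) : ℤ) := by positivity
      rw [g1, g2, abs_lt]
      constructor <;> linarith
    have h2 : (9 : ℤ) ^ (k' + 1) ≤ 9 ^ m := pow_le_pow_right₀ (by norm_num) hcon
    linarith
  -- same parent
  have hpar : i / 9 ^ k' / 9 = j / 9 ^ k' / 9 := by
    rw [Nat.div_div_eq_div_mul, Nat.div_div_eq_div_mul, ← pow_succ]
    exact hblk
  -- neighbours
  have hnb : ∀ I I' : ℕ, (I' = I + 1 ∨ I = I' + 1) →
      (X I' = X I ∨ Y I' = Y I) := by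
    intro I I' h
    rcases h with rfl | rfl
    · rcases hADJ I with ⟨h, -⟩ | ⟨h, -⟩
      · exact Or.inl h
      · exact Or.inr h
    · rcases hADJ I' with ⟨h, -⟩ | ⟨h, -⟩
      · exact Or.inl h.symm
      · exact Or.inr h.symm
  -- case X
  have caseX : ∀ i j : ℕ, i / 9 ^ (k' + 1) = j / 9 ^ (k' + 1) → (9 : ℤ) ^ m ≤ |(i : ℤ) - j| →
      |X i - X j| ≤ 3 ^ l → i / 9 ^ k' / 9 = j / 9 ^ k' / 9 → X (i / 9 ^ k') < X (j / 9 ^ k') →
      ((m : ℝ) - l) / 2 - 5 ≤ gg X K l i - gg X K l j := by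
    intro i j hblk hm hX hpar hlt
    have hI := next_of_lt hLX hlt hX (by omega)
    refine core hVLI hTRA hLX hsX hX0 hk'K hlm hmk hblk hm hI rfl hX ?_
    intro I' J' h1 h2 h3 h4
    have e1 : I' = j / 9 ^ k' :=
      hCRX (i / 9 ^ k') (j / 9 ^ k') I' J' hpar (by linarith) h1 (by linarith) h3 h4
    refine ⟨e1, ?_⟩
    have y1 : Y I' = Y (i / 9 ^ k') := by
      rcases hnb _ _ h1 with h | h
      · exfalso; rw [h2, hI] at h; linarith
      · exact h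
    have y2 : Y J' = Y (j / 9 ^ k') := by
      rcases hnb _ _ h3 with h | h
      · exfalso; rw [h4] at h; linarith
      · exact h
    apply hINJ
    · rw [h4, hI]
    · rw [y2, ← e1, y1]
  have caseY : ∀ i j : ℕ, i / 9 ^ (k' + 1) = j / 9 ^ (k' + 1) → (9 : ℤ) ^ m ≤ |(i : ℤ) - j| →
      |Y i - Y j| ≤ 3 ^ l → X (i / 9 ^ k') = X (j / 9 ^ k') → Y (i / 9 ^ k') < Y (j / 9 ^ k') →
      ((m : ℝ) - l) / 2 - 5 ≤ gg Y K l i - gg Y K l j := by
    intro i j hblk hm hY hXX hlt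
    have hI := next_of_lt hLY hlt hY (by omega)
    refine core hVLI hTRA hLY hsY hY0 hk'K hlm hmk hblk hm hI rfl hY ?_
    intro I' J' h1 h2 h3 h4
    have e1 : I' = j / 9 ^ k' :=
      hCRY (i / 9 ^ k') (j / 9 ^ k') I' hXX.symm (by linarith) h1 (by linarith)
    refine ⟨e1, ?_⟩
    have x2 : X J' = X (j / 9 ^ k') := by
      rcases hnb _ _ h3 with h | h
      · exact h
      · exfalso; rw [h4] at h; linarith
    apply hINJ
    · rw [x2, hXX]
    · rw [h4, hI]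
  have hm' : (9 : ℤ) ^ m ≤ |(j : ℤ) - i| := by rwa [abs_sub_comm]
  have hX' : |X j - X i| ≤ 3 ^ l := by rwa [abs_sub_comm]
  have hY' : |Y j - Y i| ≤ 3 ^ l := by rwa [abs_sub_comm]
  have l1 := le_max_left |gg X K l i - gg X K l j| |gg Y K l i - gg Y K l j|
  have l2 := le_max_right |gg X K l i - gg X K l j| |gg Y K l i - gg Y K l j|
  rcases lt_trichotomy (X (i / 9 ^ k')) (X (j / 9 ^ k')) with h | h | h
  · have := caseX i j hblk hm hX hpar h
    have h2 := le_abs_self (gg X K l i - gg X K l j)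
    linarith
  · rcases lt_trichotomy (Y (i / 9 ^ k')) (Y (j / 9 ^ k')) with h' | h' | h'
    · have := caseY i j hblk hm hY h h'
      have h2 := le_abs_self (gg Y K l i - gg Y K l j)
      linarith
    · exact absurd (hINJ _ _ h h') hIJ
    · have := caseY j i hblk.symm hm' hY' h.symm h'
      have h2 := neg_abs_le (gg Y K l i - gg Y K l j)
      linarith
  · have := caseX j i hblk.symm hm' hX' hpar.symm h
    have h2 := neg_abs_le (gg X K l i - gg X K l j)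
    linarith

end Pool.Agent.QEP.H78
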